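import Pool.Agent.MP_5d9b3c_ag.H72.Iface

/-!
The Poincare series of `∑ y_i f_i(x)` in terms of the Poincare series of the ideal.
-/

namespace Pool.Agent.MP_5d9b3c_ag.H76

open MvPolynomial Pool.Agent.MP_5d9b3c_ag.H72

theorem card_pre {G H : Type} [AddCommGroup G] [AddCommGroup H] (φ : G →+ H) (P : H → Prop)
    (hP : ∀ h, P h → ∃ g, φ g = h) :
    Nat.card {g // P (φ g)} = Nat.card {g // φ g = 0} * Nat.card {h // P h} := by
  choose s hs using hP
  rw [← Nat.card_prod]
  refine Nat.card_congr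
    { toFun := fun g => (⟨g.1 - s _ g.2, by rw [map_sub, hs, sub_self]⟩, ⟨φ g.1, g.2⟩)
      invFun := fun z => ⟨z.1.1 + s _ z.2.2, by rw [map_add, z.1.2, zero_add, hs]; exact z.2.2⟩
      left_inv := fun g => Subtype.ext (sub_add_cancel _ _)
      right_inv := ?_ }
  rintro ⟨⟨k, hk⟩, ⟨h, hh⟩⟩
  have e : φ (k + s h hh) = h := by rw [map_add, hk, zero_add, hs]
  refine Prod.ext (Subtype.ext ?_) (Subtype.ext e)
  have e2 : ∀ (h' : H) (hh' : P h'), h' = h → s h' hh' = s h hh := by
    rintro _ _ rfl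
    rfl
  show k + s h hh - s _ _ = k
  rw [e2 _ _ e, add_sub_cancel_right]

/-- reduction modulo `p ^ m` -/
def red (p m : ℕ) : ZMod (p ^ (m + 1)) →+* ZMod (p ^ m) :=
  ZMod.castHom (pow_dvd_pow p m.le_succ) _

theorem red_surj (p m : ℕ) : Function.Surjective (red p m) := ZMod.ringHom_surjective _

/-- coordinatewise reduction -/
def redv (σ : Type) (p m : ℕ) : (σ → ZMod (p ^ (m + 1))) →+ (σ → ZMod (p ^ m)) :=
  (red p m).toAddMonoidHom.compLeft σ

theorem redv_surj (σ : Type) (p m : ℕ) (h : σ → ZMod (p ^ m)) : ∃ g, redv σ p m g = h :=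
  (red_surj p m).comp_left h

theorem card_ker_redv (σ : Type) [Fintype σ] {p : ℕ} (hp : 0 < p) (m : ℕ) :
    Nat.card {g // redv σ p m g = 0} = p ^ Fintype.card σ := by
  have h := card_pre (redv σ p m) (fun _ => True) fun h _ => redv_surj σ p m h
  rw [Nat.card_subtype_true, Nat.card_subtype_true, Nat.card_fun, Nat.card_fun, Nat.card_zmod,
    Nat.card_zmod, Nat.card_eq_fintype_card (α := σ)] at h
  generalize Nat.card {g // redv σ p m g = 0} = c at h ⊢
  rw [pow_succ', mul_pow] at h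
  exact (Nat.eq_of_mul_eq_mul_right (by positivity) h).symm

theorem card_ker_red {p : ℕ} (hp : 0 < p) (m : ℕ) : Nat.card {t // red p m t = 0} = p := by
  have h := card_pre (red p m).toAddMonoidHom (fun _ => True) fun h _ => red_surj p m h
  rw [Nat.card_subtype_true, Nat.card_subtype_true, Nat.card_zmod, Nat.card_zmod] at h
  change p ^ (m + 1) = Nat.card {t // red p m t = 0} * p ^ m at h
  generalize Nat.card {t // red p m t = 0} = c at h ⊢
  rw [pow_succ'] at h
  exact (Nat.eq_of_mul_eq_mul_right (by positivity) h).symm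

theorem exists_mul_eq {p : ℕ} (hp : p.Prime) {m : ℕ} {v t : ZMod (p ^ (m + 1))} (hv : v ≠ 0)
    (ht : red p m t = 0) : ∃ c, c * v = t := by
  have : NeZero (p ^ (m + 1)) := ⟨pow_ne_zero _ hp.ne_zero⟩
  obtain ⟨a, rfl⟩ := ZMod.natCast_zmod_surjective v
  obtain ⟨b, rfl⟩ := ZMod.natCast_zmod_surjective t
  rw [map_natCast, ZMod.natCast_eq_zero_iff] at ht
  obtain ⟨s, rfl⟩ := ht
  have ha : a ≠ 0 := by
    rintro rfl
    exact hv Nat.cast_zero
  obtain ⟨j, u, hu, rfl⟩ := Nat.exists_eq_pow_mul_and_not_dvd ha p hp.ne_one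
  have hj : j ≤ m := by
    by_contra hj
    apply hv
    rw [ZMod.natCast_eq_zero_iff]
    exact (pow_dvd_pow p (by omega)).mul_right _
  obtain ⟨k, rfl⟩ := Nat.exists_eq_add_of_le hj
  have hc : u.Coprime (p ^ (j + k + 1)) :=
    Nat.Coprime.pow_right _ ((Nat.Prime.coprime_iff_not_dvd hp).2 hu).symm
  obtain ⟨w, hw⟩ := ((ZMod.isUnit_iff_coprime u _).2 hc).exists_left_inv
  refine ⟨w * (p ^ k * s), ?_⟩
  push_cast
  linear_combination (p : ZMod (p ^ (j + k + 1))) ^ j * p ^ k * s * hw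

/-- the pairing with a fixed vector -/
def dot {R : Type} [CommRing R] {r : ℕ} (v : Fin r → R) : (Fin r → R) →+ R where
  toFun y := ∑ i, y i * v i
  map_zero' := by simp
  map_add' a b := by simp [add_mul, Finset.sum_add_distrib]

open Classical in
theorem fibre {p : ℕ} (hp : p.Prime) {m r : ℕ} (v : Fin r → ZMod (p ^ (m + 1))) :
    p * Nat.card {y // dot v y = 0} + (if v = 0 then (p ^ (m + 1)) ^ r else 0) =
      Nat.card {y // red p m (dot v y) = 0} + p * (if v = 0 then (p ^ (m + 1)) ^ r else 0) := by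
  by_cases hv : v = 0
  · subst hv
    have h : ∀ y : Fin r → ZMod (p ^ (m + 1)), dot 0 y = 0 := fun y => by simp [dot]
    simp only [h, map_zero, if_true, Nat.card_subtype_true, Nat.card_fun, Nat.card_zmod,
      Nat.card_eq_fintype_card, Fintype.card_fin]
    ring
  · rw [if_neg hv, card_pre (dot v) (fun t => red p m t = 0), card_ker_red hp.pos]
    · ring
    · intro t ht
      obtain ⟨i, hi⟩ := Function.ne_iff.1 hv
      obtain ⟨c, hc⟩ := exists_mul_eq hp hi ht
      refine ⟨Pi.single i c, ?_⟩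
      show ∑ j, (Pi.single i c : Fin r → _) j * v j = t
      rw [Finset.sum_eq_single i (fun j _ hj => by rw [Pi.single_eq_of_ne hj, zero_mul])
        (fun h => absurd (Finset.mem_univ i) h), Pi.single_eq_same, hc]

theorem aeval_lin {R : Type} [CommRing R] {r : ℕ} (f : Fin r → MvPolynomial (Fin 2) ℤ)
    (z : Fin r ⊕ Fin 2 → R) :
    aeval z (lin f) = dot (fun i => aeval (fun j => z (Sum.inr j)) (f i)) fun i => z (Sum.inl i) := by
  simp only [lin, map_sum, map_mul, aeval_X, aeval_rename]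
  rfl

theorem card_split {R : Type} [CommRing R] [Fintype R] {r : ℕ}
    (f : Fin r → MvPolynomial (Fin 2) ℤ) (P : R → Prop) :
    Nat.card {z : Fin r ⊕ Fin 2 → R // P (aeval z (lin f))} =
      ∑ x : Fin 2 → R, Nat.card {y // P (dot (fun i => aeval x (f i)) y)} := by
  rw [← Nat.card_sigma]
  refine Nat.card_congr
    { toFun := fun z => ⟨fun j => z.1 (Sum.inr j), fun i => z.1 (Sum.inl i), by
        rw [← aeval_lin]; exact z.2⟩
      invFun := fun w => ⟨Sum.elim w.2.1 w.1, by rw [aeval_lin]; exact w.2.2⟩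
      left_inv := fun z => Subtype.ext (funext fun i => by cases i <;> rfl)
      right_inv := fun w => rfl }

theorem recursion {p : ℕ} (hp : p.Prime) (m : ℕ) {r : ℕ} (f : Fin r → MvPolynomial (Fin 2) ℤ) :
    p * Nat.card {z : Fin r ⊕ Fin 2 → ZMod (p ^ (m + 1)) // aeval z (lin f) = 0} +
        (p ^ (m + 1)) ^ r * Nat.card {x : Fin 2 → ZMod (p ^ (m + 1)) // ∀ i, aeval x (f i) = 0} =
      p ^ (r + 2) * Nat.card {z : Fin r ⊕ Fin 2 → ZMod (p ^ m) // aeval z (lin f) = 0} +
        p * ((p ^ (m + 1)) ^ r *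
          Nat.card {x : Fin 2 → ZMod (p ^ (m + 1)) // ∀ i, aeval x (f i) = 0}) := by
  classical
  have : NeZero (p ^ (m + 1)) := ⟨pow_ne_zero _ hp.ne_zero⟩
  have h1 := card_pre (redv (Fin r ⊕ Fin 2) p m) (fun z => aeval z (lin f) = 0)
    fun h _ => redv_surj _ p m h
  rw [card_ker_redv _ hp.pos, Fintype.card_sum, Fintype.card_fin, Fintype.card_fin] at h1
  have h2 : ∀ z : Fin r ⊕ Fin 2 → ZMod (p ^ (m + 1)),
      aeval (redv (Fin r ⊕ Fin 2) p m z) (lin f) = red p m (aeval z (lin f)) := fun z => by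
    have := congrArg (fun φ => φ (lin f)) (comp_aeval (f := z) (red p m).toIntAlgHom)
    exact this.symm
  simp only [h2] at h1
  have h3 : (p ^ (m + 1)) ^ r *
      Nat.card {x : Fin 2 → ZMod (p ^ (m + 1)) // ∀ i, aeval x (f i) = 0} =
      ∑ x : Fin 2 → ZMod (p ^ (m + 1)),
        if (fun i => aeval x (f i)) = 0 then (p ^ (m + 1)) ^ r else 0 := by
    rw [← Finset.sum_filter, Finset.sum_const, smul_eq_mul, mul_comm, Nat.card_eq_fintype_card,
      Fintype.card_subtype]
    simp only [funext_iff, Pi.zero_apply]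
  rw [← h1, h3, card_split f (fun t => t = 0), card_split f (fun t => red p m t = 0),
    Finset.mul_sum, Finset.mul_sum, ← Finset.sum_add_distrib, ← Finset.sum_add_distrib]
  exact Finset.sum_congr rfl fun x _ => fibre hp _

theorem card_zero (p : ℕ) {σ : Type} (P : (σ → ZMod (p ^ 0)) → Prop) (h : ∀ x, P x) :
    Nat.card {x // P x} = 1 := by
  have : Subsingleton (ZMod (p ^ 0)) := by
    rw [pow_zero]
    infer_instance
  rw [Nat.card_eq_one_iff_exists]
  exact ⟨⟨0, h 0⟩, fun y => Subtype.ext (Subsingleton.elim _ _)⟩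

theorem countN : NStmt := by
  intro p hp r f
  have hp0 : (p : ℚ) ≠ 0 := Nat.cast_ne_zero.2 hp.ne_zero
  have : Subsingleton (ZMod (p ^ 0)) := by
    rw [pow_zero]
    infer_instance
  ext m
  rw [sub_mul, one_mul, mul_assoc, map_sub, map_add, PowerSeries.coeff_C_mul,
    PowerSeries.coeff_C_mul, PowerSeries.coeff_C]
  cases m with
  | zero =>
    rw [PowerSeries.coeff_zero_X_mul, poincare, wser, PowerSeries.coeff_mk, PowerSeries.coeff_mk,
      card_zero p _ fun x => Subsingleton.elim _ _,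
      card_zero p _ fun x i => Subsingleton.elim _ _]
    simp
  | succ m =>
    rw [PowerSeries.coeff_succ_X_mul, poincare, wser, PowerSeries.coeff_mk, PowerSeries.coeff_mk,
      PowerSeries.coeff_mk, if_neg m.succ_ne_zero, Fintype.card_sum, Fintype.card_fin,
      Fintype.card_fin]
    have h := congrArg (Nat.cast : ℕ → ℚ) (recursion hp m f)
    push_cast at h
    generalize (Nat.card {z : Fin r ⊕ Fin 2 → ZMod (p ^ (m + 1)) // aeval z (lin f) = 0} : ℚ) = A
      at h ⊢
    generalize (Nat.card {z : Fin r ⊕ Fin 2 → ZMod (p ^ m) // aeval z (lin f) = 0} : ℚ) = B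
      at h ⊢
    generalize (Nat.card {x : Fin 2 → ZMod (p ^ (m + 1)) // ∀ i, aeval x (f i) = 0} : ℚ) = N
      at h ⊢
    have hA : A = ((p : ℚ) ^ (r + 2) * B + (p - 1) * (((p : ℚ) ^ (m + 1)) ^ r * N)) / p := by
      field_simp
      linear_combination h
    rw [hA]
    simp only [inv_pow]
    field_simp
    ring

end Pool.Agent.MP_5d9b3c_ag.H76
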